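import Mathlib

/-!
# Cohomology theories on the finite representations of a group (MP_519cc8_nt)

Definitions for `AllDataIff` and `LinearGrowth`.
-/

set_option autoImplicit false

namespace Pool.Agent.H51.MUS

open CategoryTheory

/-- `A` is finite dimensional and an open subgroup acts trivially on `A`. -/
def IsFin {F G : Type} [Field F] [Group G] [TopologicalSpace G] (A : Rep.{0} F G) : Prop :=
  Module.Finite F A ∧ ∃ N : Subgroup G, IsOpen (N : Set G) ∧ ∀ g ∈ N, ∀ x : A, A.ρ g x = x

/-- Cohomology in degrees one and two. -/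
structure Theory (F k G : Type) [Field F] [Field k] [Group G] [TopologicalSpace G] where
  /-- first cohomology -/
  H1 : Rep.{0} F G → ModuleCat.{0} k
  /-- second cohomology -/
  H2 : Rep.{0} F G ⥤ ModuleCat.{0} k
  additive : H2.Additive
  finite1 : ∀ A, IsFin A → Module.Finite k (H1 A)
  finite2 : ∀ A, IsFin A → Module.Finite k (H2.obj A)
  exact : ∀ {A B C : Rep.{0} F G} (f : A ⟶ B) (g : B ⟶ C), IsFin A → IsFin B → IsFin C →
    Function.Injective f.hom → Function.Exact f.hom g.hom → Function.Surjective g.hom →
    ∃ δ : H1 C →ₗ[k] H2.obj A, Function.Exact δ (H2.map f).hom ∧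
      Function.Exact (H2.map f).hom (H2.map g).hom ∧ Function.Surjective (H2.map g).hom

/-- `F[X] ⊗ W` for a `G`-set `X`: finitely supported functions `X → W`, with
`g (x ⊗ w) = g x ⊗ g w`. -/
noncomputable def permRep {F G W : Type} [Field F] [Group G] [AddCommGroup W] [Module F W]
    (X : Type) [MulAction G X] (ρ : Representation F G W) : Representation F G (X →₀ W) where
  toFun g := Finsupp.lmapDomain W F (fun x : X => g • x) ∘ₗ Finsupp.mapRange.linearMap (ρ g)
  map_one' := by ext x w; simp
  map_mul' g h := by ext x w; simp [mul_smul]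

/-- `F[X] ⊗ W` as an object -/
noncomputable abbrev PO {F G W : Type} [Field F] [Group G] [AddCommGroup W] [Module F W]
    (X : Type) [MulAction G X] (ρ : Representation F G W) : Rep.{0} F G :=
  Rep.of (permRep X ρ)

/-- `F[G/V] ⊗ W` with the diagonal action of `G`. -/
noncomputable def ind {F G : Type} [Field F] [Group G] (V : Subgroup G) (W : Rep.{0} F G) :
    Rep.{0} F G := PO (G ⧸ V) W.ρ

/-- the trivial one dimensional representation -/
noncomputable def one (F G : Type) [Field F] [Group G] : Rep.{0} F G :=
  Rep.of (Representation.trivial F G F)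

/-- `V` is a normal subgroup of `U` and `U/V` is abelian of exponent dividing `n`. -/
def AbExp {G : Type} [Group G] (n : ℕ) (V U : Subgroup G) : Prop :=
  V ≤ U ∧ (∀ a ∈ U, ∀ b ∈ U, a * b * a⁻¹ * b⁻¹ ∈ V) ∧ ∀ a ∈ U, a ^ n ∈ V

end Pool.Agent.H51.MUS
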