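import Pool.Agent.H51.MUS.Defs
import Pool.Agent.H92.MU.Slow

/-!
# `AllDataIff` and `LinearGrowth` in terms of the short definitions
-/

set_option autoImplicit false

namespace Pool.Agent.H51.MUS

open CategoryTheory

variable {F k G : Type} [Field F] [Field k] [Group G] [TopologicalSpace G]

/-- the theory in the old definitions -/
noncomputable def Theory.old (T : Theory F k G) : Pool.Agent.H92.MU.Theory F k G where
  H1 := T.H1
  H2 := T.H2
  additive := T.additive
  finite1 := T.finite1
  finite2 := T.finite2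
  exact := T.exact

theorem all_main [IsTopologicalGroup G] [CompactSpace G] (T : Theory F k G)
    {p : ℕ} [Fact p.Prime] [CharP k p]
    (U₀ : Subgroup G) (hU₀ : IsOpen (U₀ : Set G)) (hn : U₀.Normal) (hp₀ : ¬ p ∣ U₀.index) :
    (∀ A : Rep.{0} F G, IsFin A → Subsingleton (T.H2.obj A)) ↔
      ∀ U : Subgroup G, IsOpen (U : Set G) → U ≤ U₀ → ¬ p ∣ U.index →
        ∀ c : ℕ, ∃ (s : ℕ) (V : Subgroup G), IsOpen (V : Set G) ∧ AbExp (p ^ s) V U ∧
          (p ^ s) ^ c * Module.finrank k (T.H2.obj (ind V (one F G))) < V.relIndex U :=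
  haveI := hn
  T.old.all_iff_slow hU₀ hp₀

theorem linear_main [IsTopologicalGroup G] [CompactSpace G] (T : Theory F k G)
    {p s : ℕ} [Fact p.Prime] [CharP k p] (W : Rep.{0} F G) (hW : IsFin W)
    (U V : Subgroup G) (hU : IsOpen (U : Set G)) (hV : IsOpen (V : Set G))
    (hUV : AbExp (p ^ s) V U) :
    (0 < Module.finrank k (T.H2.obj (ind U W)) →
      V.relIndex U ≤ (p ^ s) ^ (Module.finrank k (T.H1 (ind U W))) *
        Module.finrank k (T.H2.obj (ind V W))) ∧
      Module.finrank k (T.H2.obj (ind V W)) ≤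
        V.relIndex U * Module.finrank k (T.H2.obj (ind U W)) :=
  ⟨fun hne => (T.old.two_sided hW hU hV hUV hne).1,
    T.old.upper hW hU hV (Pool.Agent.H92.MU.AbExp.pnorm hUV)⟩

end Pool.Agent.H51.MUS
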